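import Mathlib
import Pool.Agent.Y423.HD.Law

set_option autoImplicit false

/-!
# MP_1af0ac_pr, Q1: infinitely many harmonic functions of nearly quadratic growth on stationary
random graphs of nearly linear volume growth

For every `ε > 0` there is a stationary random graph, unweighted and of bounded degree, all of whose
balls of radius `n` have at most `C n ^ (1 + ε)` vertices, such that `ℋ_k` is almost surely
infinite dimensional for every `k ≥ 2 + ε`.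
-/

open MeasureTheory
open scoped ENNReal

namespace Pool.Agent.Results.MP_1af0ac_pr.NearlyQuadratic

open Pool.Agent.Results.MP_1af0ac_pr.InfiniteDim (WGraph StationaryRandomGraph)
open Pool.Agent.Y423.HD

/-- **Main theorem.** For every `ε > 0` there are a stationary random graph, with unit weights and
all degrees at most `Δ`, and a constant `C` such that every ball of radius `n ≥ 1` has at most
`C n ^ (1 + ε)` vertices and, almost surely, `ℋ_k` is infinite dimensional for every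
`k ≥ 2 + ε`. -/
theorem result : ∀ ε : ℝ, 0 < ε →
    ∃ (Ω V : Type) (_ : MeasurableSpace Ω) (S : StationaryRandomGraph Ω V) (Δ : ℕ) (C : ℝ),
      (∀ ω v w, (S.Γ ω).graph.Adj v w → (S.Γ ω).wt v w = 1) ∧
      (∀ ω v, {w | (S.Γ ω).graph.Adj v w}.encard ≤ Δ) ∧
      (∀ ω v, ∀ n : ℕ, 1 ≤ n → ((S.Γ ω).ball v n).Finite ∧
        (((S.Γ ω).ball v n).ncard : ℝ) ≤ C * (n : ℝ) ^ (1 + ε)) ∧
      S.PolynomialGrowth ∧
      ∀ᵐ ω ∂S.μ, ∀ k : ℝ, 2 + ε ≤ k → ¬ FiniteDimensional ℝ ((S.Γ ω).H (S.ρ ω) k) := by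
  intro ε hε
  obtain ⟨t, ht⟩ := exists_nat_gt (max 1 (2 / ε))
  have ht1 : (1 : ℝ) < t := lt_of_le_of_lt (le_max_left _ _) ht
  have ht2 : 2 / ε < t := lt_of_le_of_lt (le_max_right _ _) ht
  have ht0 : (0 : ℝ) < t := by linarith
  have htn : t ≠ 0 := by
    rintro rfl
    simp at ht0
  obtain ⟨θ, hθdef⟩ : ∃ θ : ℝ, θ = (t : ℝ)⁻¹ := ⟨_, rfl⟩
  have hθ0 : 0 < θ := by rw [hθdef]; positivity
  have hθ1 : θ ≤ 1 := by
    rw [hθdef]
    exact inv_le_one_of_one_le₀ ht1.le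
  have hθε : 2 * θ ≤ ε := by
    rw [hθdef]
    rw [div_lt_iff₀ hε] at ht2
    rw [← div_eq_mul_inv, div_le_iff₀ ht0]
    linarith
  have hs : Fact (2 ≤ 2 ^ t) := ⟨by
    calc 2 = 2 ^ 1 := by norm_num
      _ ≤ 2 ^ t := Nat.pow_le_pow_right (by norm_num) (by omega)⟩
  obtain ⟨s, hsdef⟩ : ∃ s : ℕ, s = 2 ^ t := ⟨_, rfl⟩
  rw [← hsdef] at hs
  have hθ : (s : ℝ) ^ θ = 2 := by
    rw [hsdef, hθdef]
    push_cast
    exact Real.pow_rpow_inv_natCast (by norm_num) htn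
  obtain ⟨C, hC0, hC⟩ := ball_bound (s := s) hθ hθ0.le
  refine ⟨ℕ, Vert s, inferInstance, S0 s, 4 * s + 2, C, ?_, ?_, ?_, ?_, ?_⟩
  · intro ω v w h
    exact wt0_adj h
  · intro ω v
    have h1 : {w | ((S0 s).Γ ω).graph.Adj v w} = (nb v : Set (Vert s)) := by
      ext w
      rw [Finset.mem_coe, mem_nb]; rfl
    rw [h1, Set.encard_coe_eq_coe_finsetCard, card_nb]
    have := upc_le (s := s) (Pool.Agent.Y423.HD.ht v)
    have := downc_le (s := s) (Pool.Agent.Y423.HD.ht v)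
    have h2 : upc s (Pool.Agent.Y423.HD.ht v) + downc s (Pool.Agent.Y423.HD.ht v) ≤
        4 * s + 2 := by omega
    exact_mod_cast h2
  · intro ω v n hn
    obtain ⟨M, hM1, hM2⟩ := hC v n hn
    have h1 := Set.encard_le_coe_iff_finite_ncard_le.1 hM1
    refine ⟨h1.1, ?_⟩
    have h2 : (((S0 s).Γ ω).ball v n).ncard ≤ M := h1.2
    have h3 : ((((S0 s).Γ ω).ball v n).ncard : ℝ) ≤ M := by exact_mod_cast h2
    have hn1 : (1 : ℝ) ≤ n := by exact_mod_cast hn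
    have h4 : (n : ℝ) ^ (1 + 2 * θ) ≤ (n : ℝ) ^ (1 + ε) :=
      Real.rpow_le_rpow_of_exponent_le hn1 (by linarith)
    have h5 := mul_le_mul_of_nonneg_left h4 hC0.le
    linarith
  · refine ⟨⌈C⌉₊, 3, fun n hn => ?_⟩
    have hn1 : (1 : ℝ) ≤ n := by exact_mod_cast hn
    have h1 : ∀ ω : ℕ, ((((S0 s).Γ ω).ball ((S0 s).ρ ω) n).encard : ℝ≥0∞) ≤
        (⌈C⌉₊ : ℝ≥0∞) * (n : ℝ≥0∞) ^ 3 := by
      intro ω
      obtain ⟨M, hM1, hM2⟩ := hC ((S0 s).ρ ω) n hn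
      have h2 : M ≤ ⌈C⌉₊ * n ^ 3 := by
        have h3 : (n : ℝ) ^ (1 + 2 * θ) ≤ (n : ℝ) ^ (3 : ℝ) :=
          Real.rpow_le_rpow_of_exponent_le hn1 (by linarith)
        have h4 : (n : ℝ) ^ (3 : ℝ) = (n : ℝ) ^ 3 := by
          have := Real.rpow_natCast (n : ℝ) 3
          push_cast at this
          exact this
        have h5 : (M : ℝ) ≤ (⌈C⌉₊ : ℝ) * (n : ℝ) ^ 3 := by
          calc (M : ℝ) ≤ C * (n : ℝ) ^ (1 + 2 * θ) := hM2
            _ ≤ C * (n : ℝ) ^ 3 := by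
                rw [← h4]
                exact mul_le_mul_of_nonneg_left h3 hC0.le
            _ ≤ (⌈C⌉₊ : ℝ) * (n : ℝ) ^ 3 :=
                mul_le_mul_of_nonneg_right (Nat.le_ceil C) (by positivity)
        exact_mod_cast h5
      have h6 : ((((S0 s).Γ ω).ball ((S0 s).ρ ω) n).encard : ℝ≥0∞) ≤ ((M : ℕ∞) : ℝ≥0∞) :=
        ENat.toENNReal_le.2 hM1
      refine h6.trans ?_
      have h7 : ((M : ℕ∞) : ℝ≥0∞) ≤ (((⌈C⌉₊ * n ^ 3 : ℕ) : ℕ∞) : ℝ≥0∞) :=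
        ENat.toENNReal_le.2 (by exact_mod_cast h2)
      refine h7.trans (le_of_eq ?_)
      simp
    have : IsProbabilityMeasure (S0 s).μ := (S0 s).prob
    calc ∫⁻ ω, ((((S0 s).Γ ω).ball ((S0 s).ρ ω) n).encard : ℝ≥0∞) ∂(S0 s).μ
        ≤ ∫⁻ _ω, (⌈C⌉₊ : ℝ≥0∞) * (n : ℝ≥0∞) ^ 3 ∂(S0 s).μ := lintegral_mono h1
      _ = (⌈C⌉₊ : ℝ≥0∞) * (n : ℝ≥0∞) ^ 3 := by simp
  · exact Filter.Eventually.of_forall fun ω k hk =>
      not_finiteDimensional hθ hθ0.le (by linarith) _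

end Pool.Agent.Results.MP_1af0ac_pr.NearlyQuadratic
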